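import Mathlib

/-!
# Multiplication in `C(X)` is uniformly open if `dim X ≤ 1`

Let `X` be a compact Hausdorff space of covering dimension at most one. Then `ab` lies in the
interior of `B(a, ε) · B(b, ε)`, uniformly in `a` and `b`.

If `c` is near `ab`, approximate `c` by an invertible `c'` (this uses `dim X ≤ 1`). The positive
function `m` with `m - |c'| / m = |a| - |b|` is near `|a|`, and the phase of `a` on `{|a| ≥ s}` and
the phase of `c' / b` on `{|b| ≥ s}` can be extended to a map `u` from `X` to the circle (again by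
`dim X ≤ 1`). Then `m u` is near `a`, and `c' / (m u)` is near `b`. An iteration gives exactly `c`.
-/

set_option autoImplicit false

namespace Pool.Agent.Results.MP_64150f_an.UniformlyOpen

open Set Filter Topology

/-- The Lebesgue covering dimension of `X` is at most `d`: every finite open cover has a finite open
refinement such that each point is in at most `d + 1` of its members. -/
def CoveringDimLE (X : Type*) [TopologicalSpace X] (d : ℕ) : Prop :=
  ∀ (n : ℕ) (U : Fin n → Set X), (∀ i, IsOpen (U i)) → ⋃ i, U i = univ →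
    ∃ (m : ℕ) (V : Fin m → Set X), (∀ k, IsOpen (V k)) ∧ ⋃ k, V k = univ ∧
      (∀ k, ∃ i, V k ⊆ U i) ∧ ∀ x, {k | x ∈ V k}.ncard ≤ d + 1

/-- The determinant of two complex numbers. -/
noncomputable def det (z w : ℂ) : ℝ := z.re * w.im - z.im * w.re

theorem det_add (z w₁ w₂ : ℂ) (r s : ℝ) :
    det z ((r : ℂ) * w₁ + (s : ℂ) * w₂) = r * det z w₁ + s * det z w₂ := by
  simp [det]; ring

theorem det_self (z : ℂ) : det z z = 0 := by simp [det]; ring

/-- A nonconstant quadratic polynomial has finitely many zeros. -/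
theorem finite_zeros {A B C : ℝ} (hC : C ≠ 0) : {t : ℝ | A + B * t + C * t ^ 2 = 0}.Finite := by
  let p : Polynomial ℝ := Polynomial.C A + Polynomial.C B * Polynomial.X +
    Polynomial.C C * Polynomial.X ^ 2
  have hp : p ≠ 0 := by
    intro h
    have h2 := congrArg (fun q : Polynomial ℝ => q.coeff 2) h
    simp [p] at h2
    exact hC h2
  refine (Polynomial.finite_setOfPred_isRoot hp).subset ?_
  intro t ht
  have ht' : A + B * t + C * t ^ 2 = 0 := ht
  change p.eval t = 0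
  simp [p, ht']

/-- Points in general position near given points. -/
theorem exists_general {m : ℕ} (z : Fin m → ℂ) {η : ℝ} (hη : 0 < η) :
    ∃ z' : Fin m → ℂ, (∀ k, ‖z' k - z k‖ ≤ η) ∧ (∀ k, z' k ≠ 0) ∧
      ∀ k l, k ≠ l → det (z' k) (z' l) ≠ 0 := by
  -- the direction of the perturbation
  let w : Fin m → ℂ := fun k => ⟨1, (k : ℝ)⟩
  have hbad : (⋃ k : Fin m, ⋃ l : Fin m, {t : ℝ | k ≠ l ∧ det (z k + t * w k) (z l + t * w l) = 0} ∪
      {t : ℝ | z k + t * w k = 0}).Finite := by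
    refine Set.finite_iUnion fun k => Set.finite_iUnion fun l => Set.Finite.union ?_ ?_
    · by_cases hkl : k = l
      · simp [hkl]
      · have hC : ((l : ℝ) - (k : ℝ)) ≠ 0 := by
          rw [sub_ne_zero]
          intro h
          have h' : (l : ℕ) = (k : ℕ) := by exact_mod_cast h
          exact hkl (Fin.ext h'.symm)
        refine (finite_zeros (A := det (z k) (z l))
          (B := (z k).re * l + (z l).im - (z k).im - k * (z l).re) hC).subset ?_
        rintro t ⟨-, ht⟩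
        have : det (z k + t * w k) (z l + t * w l) = det (z k) (z l) +
            ((z k).re * l + (z l).im - (z k).im - k * (z l).re) * t + ((l : ℝ) - k) * t ^ 2 := by
          simp [det, w]; ring
        rw [this] at ht
        exact ht
    · refine (Set.finite_singleton (-(z k).re)).subset ?_
      intro t ht
      have h1 := congrArg Complex.re ht
      simp [w] at h1
      rw [Set.mem_singleton_iff]
      linarith
  have hw : ∀ k, ‖w k‖ ≤ 1 + m := by
    intro k
    have h1 := Complex.norm_le_abs_re_add_abs_im (w k)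
    have h2 : ((k : ℕ) : ℝ) ≤ m := by exact_mod_cast k.2.le
    simp [w] at h1
    simp only [w]
    linarith
  obtain ⟨t, ht, htb⟩ := ((Set.Ioo_infinite (show (0 : ℝ) < η / (1 + m) by positivity)).sdiff
    hbad).nonempty
  refine ⟨fun k => z k + t * w k, fun k => ?_, fun k hk => htb ?_, fun k l hkl hd => htb ?_⟩
  · rw [add_sub_cancel_left, norm_mul, Complex.norm_real, Real.norm_of_nonneg ht.1.le]
    calc t * ‖w k‖ ≤ η / (1 + m) * (1 + m) := by
          gcongr
          · exact ht.2.le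
          · exact hw k
      _ = η := by field_simp
  · exact mem_iUnion.mpr ⟨k, mem_iUnion.mpr ⟨k, Or.inr hk⟩⟩
  · exact mem_iUnion.mpr ⟨k, mem_iUnion.mpr ⟨l, Or.inl ⟨hkl, hd⟩⟩⟩

variable {X : Type*} [TopologicalSpace X] [CompactSpace X] [T2Space X]

/-- If `dim X ≤ 1`, then the invertible elements are dense in `C(X)`. -/
theorem exists_invertible (hX : CoveringDimLE X 1) (g : C(X, ℂ)) {η : ℝ} (hη : 0 < η) :
    ∃ h : C(X, ℂ), (∀ x, h x ≠ 0) ∧ ∀ x, ‖h x - g x‖ ≤ η := by
  -- a cover by sets on which `g` is nearly constant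
  obtain ⟨t, -, htf, ht⟩ := (isCompact_range g.continuous).finite_cover_balls
    (e := η / 2) (by positivity)
  have : Finite t := htf.to_subtype
  obtain ⟨n, ⟨e⟩⟩ : ∃ n, Nonempty (Fin n ≃ t) := ⟨_, ⟨(Finite.equivFin t).symm⟩⟩
  let U : Fin n → Set X := fun i => g ⁻¹' Metric.ball (e i : ℂ) (η / 2)
  obtain ⟨m, V, hVo, hVc, hVU, hVn⟩ := hX n U (fun i => Metric.isOpen_ball.preimage g.continuous) (by
    rw [eq_univ_iff_forall]
    intro x
    have h1 := ht (mem_range_self x)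
    rw [mem_iUnion₂] at h1
    obtain ⟨c, hc, hxc⟩ := h1
    refine mem_iUnion.mpr ⟨e.symm ⟨c, hc⟩, ?_⟩
    change g x ∈ Metric.ball (e (e.symm ⟨c, hc⟩) : ℂ) (η / 2)
    rw [Equiv.apply_symm_apply]
    exact hxc)
  choose i hi using hVU
  obtain ⟨φ, hφ⟩ := PartitionOfUnity.exists_isSubordinate_of_locallyFinite isClosed_univ V hVo
    (locallyFinite_of_finite V) hVc.ge
  have hφV : ∀ k x, φ k x ≠ 0 → x ∈ V k := fun k x hx =>
    hφ k (subset_tsupport _ (Function.mem_support.mpr hx))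
  have hsum : ∀ x, ∑ k, φ k x = 1 := by
    intro x
    rw [← finsum_eq_sum_of_fintype]
    exact φ.sum_eq_one (mem_univ x)
  obtain ⟨z, hz1, hz2, hz3⟩ := exists_general (fun k => (e (i k) : ℂ)) (half_pos hη)
  let h : C(X, ℂ) := ⟨fun x => ∑ k, ((φ k x : ℝ) : ℂ) * z k, by
    refine continuous_finsetSum _ fun k _ => ?_
    have := (φ k).continuous
    fun_prop⟩
  refine ⟨h, fun x hx => ?_, fun x => ?_⟩
  · change ∑ k, ((φ k x : ℝ) : ℂ) * z k = 0 at hx
    let T : Finset (Fin m) := Finset.univ.filter fun k => φ k x ≠ 0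
    have hT : T.card ≤ 2 := by
      have h1 : (T : Set (Fin m)) ⊆ {k | x ∈ V k} := by
        intro k hk
        exact hφV k x (Finset.mem_filter.mp hk).2
      have h2 := Set.ncard_le_ncard h1 (Set.toFinite _)
      rw [Set.ncard_coe_finset] at h2
      exact h2.trans (hVn x)
    have hsT : ∑ k ∈ T, φ k x = 1 := by
      rw [← hsum x]
      exact Finset.sum_filter_ne_zero _
    have hxT : ∑ k ∈ T, ((φ k x : ℝ) : ℂ) * z k = 0 := by
      rw [← hx]
      refine Finset.sum_subset (Finset.subset_univ _) fun k _ hk => ?_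
      have : φ k x = 0 := by
        by_contra hne
        exact hk (Finset.mem_filter.mpr ⟨Finset.mem_univ k, hne⟩)
      rw [this]; simp
    have hT0 : T.card ≠ 0 := by
      intro h0
      rw [Finset.card_eq_zero] at h0
      rw [h0] at hsT
      simp at hsT
    have hT12 : T.card = 1 ∨ T.card = 2 := by omega
    rcases hT12 with h1 | h2
    · obtain ⟨k, hk⟩ := Finset.card_eq_one.mp h1
      rw [hk, Finset.sum_singleton] at hsT hxT
      rw [hsT] at hxT
      simp at hxT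
      exact hz2 k hxT
    · obtain ⟨k, l, hkl, hk⟩ := Finset.card_eq_two.mp h2
      rw [hk, Finset.sum_pair hkl] at hsT hxT
      have h3 := congrArg (det (z k)) hxT
      have h4 := congrArg (fun y => det y (z l)) hxT
      rw [det_add, det_self] at h3
      have h5 : det (z k) 0 = 0 := by simp [det]
      rw [h5, mul_zero, zero_add] at h3
      have h6 : φ l x = 0 := (mul_eq_zero.mp h3).resolve_right (hz3 k l hkl)
      have : l ∈ T := by rw [hk]; simp
      exact (Finset.mem_filter.mp this).2 h6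
  · have h1 : h x - g x = ∑ k, ((φ k x : ℝ) : ℂ) * (z k - g x) := by
      change ∑ k, ((φ k x : ℝ) : ℂ) * z k - g x = _
      simp_rw [mul_sub]
      rw [Finset.sum_sub_distrib, ← Finset.sum_mul]
      have : ∑ k, ((φ k x : ℝ) : ℂ) = 1 := by exact_mod_cast hsum x
      rw [this, one_mul]
    rw [h1]
    calc ‖∑ k, ((φ k x : ℝ) : ℂ) * (z k - g x)‖ ≤ ∑ k, φ k x * η := by
          refine norm_sum_le_of_le _ fun k _ => ?_
          rw [norm_mul, Complex.norm_real, Real.norm_of_nonneg (φ.nonneg k x)]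
          by_cases hk : φ k x = 0
          · rw [hk]; simp
          · refine mul_le_mul_of_nonneg_left ?_ (φ.nonneg k x)
            have h2 := hi k (hφV k x hk)
            change g x ∈ Metric.ball (e (i k) : ℂ) (η / 2) at h2
            rw [Metric.mem_ball, dist_eq_norm, norm_sub_rev] at h2
            have h3 : z k - g x = (z k - e (i k)) + (e (i k) - g x) := by abel
            rw [h3]
            refine (norm_add_le _ _).trans ?_
            have := hz1 k
            linarith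
      _ = η := by rw [← Finset.sum_mul, hsum, one_mul]

/-- If `dim X ≤ 1`, then the phase of `g` on `{r ≤ |g|}` extends to a map to the circle. -/
theorem exists_phase (hX : CoveringDimLE X 1) (g : C(X, ℂ)) {r : ℝ} (hr : 0 < r) :
    ∃ u : C(X, ℂ), (∀ x, ‖u x‖ = 1) ∧ ∀ x, r ≤ ‖g x‖ → g x = (‖g x‖ : ℂ) * u x := by
  obtain ⟨h, h0, hg⟩ := exists_invertible hX g (η := r / 4) (by positivity)
  -- the quotient, pushed into the right half-plane
  let W : X → ℂ := fun x => ⟨max (g x / h x).re (1 / 2), (g x / h x).im⟩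
  have hq : Continuous fun x => g x / h x := g.continuous.div h.continuous h0
  have hWc : Continuous W := by
    have h1 : Continuous fun x => max (g x / h x).re (1 / 2) :=
      (Complex.continuous_re.comp hq).max continuous_const
    have h2 : Continuous fun x => (g x / h x).im := Complex.continuous_im.comp hq
    have h3 : W = fun x => ((max (g x / h x).re (1 / 2) : ℝ) : ℂ) +
        (((g x / h x).im : ℝ) : ℂ) * Complex.I := by
      funext x
      exact (Complex.re_add_im (W x)).symm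
    rw [h3]
    exact (Complex.continuous_ofReal.comp h1).add
      ((Complex.continuous_ofReal.comp h2).mul continuous_const)
  have hW0 : ∀ x, W x ≠ 0 := by
    intro x hx
    have h1 := congrArg Complex.re hx
    have h2 : (1 / 2 : ℝ) ≤ (W x).re := le_max_right _ _
    rw [h1, Complex.zero_re] at h2
    norm_num at h2
  have hn : ∀ x, (‖h x * W x‖ : ℂ) ≠ 0 := by
    intro x
    have := norm_ne_zero_iff.mpr (mul_ne_zero (h0 x) (hW0 x))
    exact_mod_cast this
  let u : C(X, ℂ) := ⟨fun x => h x * W x / (‖h x * W x‖ : ℂ), by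
    refine Continuous.div (h.continuous.mul hWc) ?_ hn
    exact Complex.continuous_ofReal.comp (h.continuous.mul hWc).norm⟩
  refine ⟨u, fun x => ?_, fun x hx => ?_⟩
  · change ‖h x * W x / (‖h x * W x‖ : ℂ)‖ = 1
    rw [norm_div, Complex.norm_real, norm_norm, div_self]
    exact_mod_cast hn x
  · have hre : (1 / 2 : ℝ) ≤ (g x / h x).re := by
      have hgx : 0 < ‖g x‖ := lt_of_lt_of_le hr hx
      have h1 : 3 / 4 * r ≤ ‖h x‖ := by
        have := norm_sub_norm_le (g x) (h x)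
        rw [norm_sub_rev] at this
        have := hg x
        linarith
      have h2 : ‖g x / h x - 1‖ ≤ 1 / 3 := by
        have h3 : g x / h x - 1 = -(h x - g x) / h x := by
          field_simp [h0 x]
          ring
        rw [h3, norm_div, norm_neg, div_le_iff₀ (by linarith)]
        have := hg x
        linarith
      have h3 := (Complex.abs_re_le_norm (g x / h x - 1)).trans h2
      rw [Complex.sub_re, Complex.one_re] at h3
      have h4 := (abs_le.mp h3).1
      linarith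
    have hWx : W x = g x / h x := by
      refine Complex.ext ?_ rfl
      exact max_eq_left hre
    have hhW : h x * W x = g x := by
      rw [hWx, mul_div_cancel₀ _ (h0 x)]
    change g x = (‖g x‖ : ℂ) * (h x * W x / (‖h x * W x‖ : ℂ))
    have := hn x
    rw [hhW] at this ⊢
    rw [mul_div_cancel₀ _ this]

/-- The phase of `p` is near the phase `w` if `p` is near a positive multiple of `w`. -/
theorem phase_near {p w u : ℂ} {l d : ℝ} (hl : 0 < l) (hw : ‖w‖ = 1) (hu : ‖u‖ = 1)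
    (hp : p = (‖p‖ : ℂ) * u) (h : ‖p - (l : ℂ) * w‖ ≤ l * d) : ‖u - w‖ ≤ 2 * d := by
  have h1 : |‖p‖ - l| ≤ l * d := by
    have h2 := abs_norm_sub_norm_le p ((l : ℂ) * w)
    rw [norm_mul, Complex.norm_real, Real.norm_of_nonneg hl.le, hw, mul_one] at h2
    exact h2.trans h
  have h3 : (l : ℂ) * (u - w) = (p - (l : ℂ) * w) - ((‖p‖ - l : ℝ) : ℂ) * u := by
    conv_rhs => rw [hp]
    have : (‖(‖p‖ : ℂ) * u‖ : ℝ) = ‖p‖ := by
      rw [norm_mul, Complex.norm_real, norm_norm, hu, mul_one]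
    rw [this]
    push_cast
    ring
  have h4 : l * ‖u - w‖ ≤ l * (2 * d) := by
    calc l * ‖u - w‖ = ‖(l : ℂ) * (u - w)‖ := by
          rw [norm_mul, Complex.norm_real, Real.norm_of_nonneg hl.le]
      _ ≤ ‖p - (l : ℂ) * w‖ + ‖((‖p‖ - l : ℝ) : ℂ) * u‖ := by
          rw [h3]; exact norm_sub_le _ _
      _ ≤ l * d + l * d := by
          rw [norm_mul, Complex.norm_real, hu, mul_one, Real.norm_eq_abs]
          exact add_le_add h h1
      _ = l * (2 * d) := by ring
  exact le_of_mul_le_mul_left h4 hl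

/-- The phase of a positive combination of two near phases. -/
theorem near {α β s d : ℝ} {w₁ w₂ u p : ℂ} (hs : 0 < s) (hα : s ≤ α) (hβ : 0 ≤ β)
    (hw₁ : ‖w₁‖ = 1) (hu : ‖u‖ = 1) (hd : d ≤ 1 / 4)
    (hp : p = (α : ℂ) * w₁ + (β : ℂ) * w₂) (h : β * ‖w₂ - w₁‖ ≤ (α + β) * d)
    (hup : s / 2 ≤ ‖p‖ → p = (‖p‖ : ℂ) * u) : ‖u - w₁‖ ≤ 2 * d := by
  have hl : 0 < α + β := by linarith
  have h1 : ‖p - ((α + β : ℝ) : ℂ) * w₁‖ ≤ (α + β) * d := by
    have : p - ((α + β : ℝ) : ℂ) * w₁ = (β : ℂ) * (w₂ - w₁) := by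
      rw [hp]; push_cast; ring
    rw [this, norm_mul, Complex.norm_real, Real.norm_of_nonneg hβ]
    exact h
  have h2 : s / 2 ≤ ‖p‖ := by
    have h3 := norm_sub_norm_le (((α + β : ℝ) : ℂ) * w₁) p
    rw [norm_sub_rev, norm_mul, Complex.norm_real, Real.norm_of_nonneg hl.le, hw₁, mul_one] at h3
    nlinarith
  exact phase_near hl hw₁ hu (hup h2) h1

/-- The modulus of the first factor. -/
noncomputable def md (a b c : ℂ) : ℝ :=
  ((‖a‖ - ‖b‖) + √((‖a‖ - ‖b‖) ^ 2 + 4 * ‖c‖)) / 2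

theorem md_near {a b c : ℂ} {s : ℝ} (hs : 0 < s) (hab : ‖c - a * b‖ ≤ 2 * s ^ 2) :
    |md a b c - ‖a‖| ≤ 2 * s := by
  set R := √((‖a‖ - ‖b‖) ^ 2 + 4 * ‖c‖) with hR
  have hR0 : 0 ≤ R := Real.sqrt_nonneg _
  have hR2 : R ^ 2 = (‖a‖ - ‖b‖) ^ 2 + 4 * ‖c‖ := Real.sq_sqrt (by positivity)
  have h1 : |‖c‖ - ‖a‖ * ‖b‖| ≤ 2 * s ^ 2 := by
    rw [← norm_mul]
    exact (abs_norm_sub_norm_le _ _).trans hab
  have h2 : |R - (‖a‖ + ‖b‖)| ≤ 3 * s := by
    by_contra hcon
    push Not at hcon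
    have h3 : |R - (‖a‖ + ‖b‖)| ≤ R + (‖a‖ + ‖b‖) := by
      rw [abs_le]
      constructor <;> nlinarith [norm_nonneg a, norm_nonneg b]
    have h4 : |R - (‖a‖ + ‖b‖)| * |R - (‖a‖ + ‖b‖)| ≤
        |R - (‖a‖ + ‖b‖)| * (R + (‖a‖ + ‖b‖)) :=
      mul_le_mul_of_nonneg_left h3 (abs_nonneg _)
    have h5 : |R - (‖a‖ + ‖b‖)| * (R + (‖a‖ + ‖b‖)) = |4 * (‖c‖ - ‖a‖ * ‖b‖)| := by
      have h6 : 0 ≤ R + (‖a‖ + ‖b‖) := by positivity
      have h7 : |R - (‖a‖ + ‖b‖)| * (R + (‖a‖ + ‖b‖)) =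
          |(R - (‖a‖ + ‖b‖)) * (R + (‖a‖ + ‖b‖))| := by rw [abs_mul, abs_of_nonneg h6]
      rw [h7]
      congr 1
      linear_combination hR2
    rw [h5, abs_mul, abs_of_pos (by norm_num : (0 : ℝ) < 4)] at h4
    nlinarith
  have h3 : md a b c - ‖a‖ = (R - (‖a‖ + ‖b‖)) / 2 := by
    rw [md, ← hR]; ring
  rw [h3, abs_div, abs_of_pos (by norm_num : (0 : ℝ) < 2)]
  linarith

theorem md_pos {a b c : ℂ} (hc : c ≠ 0) : 0 < md a b c := by
  have h1 : |‖a‖ - ‖b‖| < √((‖a‖ - ‖b‖) ^ 2 + 4 * ‖c‖) := by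
    rw [← Real.sqrt_sq_eq_abs]
    refine Real.sqrt_lt_sqrt (sq_nonneg _) ?_
    have := norm_pos_iff.mpr hc
    linarith
  have h2 := neg_abs_le (‖a‖ - ‖b‖)
  rw [md]
  linarith

theorem md_mul (a b c : ℂ) : md a b c * md b a c = ‖c‖ := by
  have h1 : √((‖b‖ - ‖a‖) ^ 2 + 4 * ‖c‖) = √((‖a‖ - ‖b‖) ^ 2 + 4 * ‖c‖) := by
    congr 1; ring
  have h2 : √((‖a‖ - ‖b‖) ^ 2 + 4 * ‖c‖) ^ 2 = (‖a‖ - ‖b‖) ^ 2 + 4 * ‖c‖ :=
    Real.sq_sqrt (by positivity)
  rw [md, md, h1]
  linear_combination h2 / 4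

/-- The cut-off weight. -/
noncomputable def cut (s : ℝ) (a : ℂ) : ℝ := max (‖a‖ - 4 * s) 0 / max ‖a‖ s

theorem half {a b c u p : ℂ} {s : ℝ} (hs : 0 < s) (hab : ‖c - a * b‖ ≤ 2 * s ^ 2) (hc : c ≠ 0)
    (hu : ‖u‖ = 1)
    (hp : p = (cut s a : ℂ) * a + (cut s b : ℂ) * (c / (‖c‖ : ℂ) * (starRingEnd ℂ) b))
    (hup : s / 2 ≤ ‖p‖ → p = (‖p‖ : ℂ) * u) : ‖(md a b c : ℂ) * u - a‖ ≤ 12 * s := by
  have hm := md_near hs hab
  have hm0 := md_pos (a := a) (b := b) hc
  have hm' := (abs_le.mp hm).2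
  by_cases ha : ‖a‖ ≤ 5 * s
  · refine (norm_sub_le _ _).trans ?_
    rw [norm_mul, hu, mul_one, Complex.norm_real, Real.norm_of_nonneg hm0.le]
    linarith
  push Not at ha
  have ha0 : 0 < ‖a‖ := by linarith
  have ha0' : (‖a‖ : ℂ) ≠ 0 := by exact_mod_cast ha0.ne'
  set w₁ : ℂ := a / (‖a‖ : ℂ) with hw₁
  have hw₁n : ‖w₁‖ = 1 := by rw [hw₁, norm_div, Complex.norm_real, norm_norm, div_self ha0.ne']
  have haw : a = (‖a‖ : ℂ) * w₁ := by rw [hw₁, mul_div_cancel₀ _ ha0']
  have hcuta : (cut s a : ℂ) * a = ((‖a‖ - 4 * s : ℝ) : ℂ) * w₁ := by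
    rw [cut, max_eq_left (by linarith), max_eq_left (by linarith), hw₁]
    push_cast
    field_simp
  have hc0 : ‖c‖ ≠ 0 := norm_ne_zero_iff.mpr hc
  -- it suffices to bound the distance of the phases
  suffices h : ‖a‖ * ‖u - w₁‖ ≤ 2 * s by
    have h1 : (md a b c : ℂ) * u - a = ((md a b c - ‖a‖ : ℝ) : ℂ) * u + (‖a‖ : ℂ) * (u - w₁) := by
      push_cast
      linear_combination -haw
    rw [h1]
    refine (norm_add_le _ _).trans ?_
    rw [norm_mul, norm_mul, hu, mul_one, Complex.norm_real, Complex.norm_real, norm_norm,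
      Real.norm_eq_abs]
    linarith
  by_cases hb : ‖b‖ ≤ 4 * s
  · have hcutb : cut s b = 0 := by rw [cut, max_eq_right (by linarith), zero_div]
    have h1 : ‖u - w₁‖ ≤ 2 * 0 := by
      refine near (α := ‖a‖ - 4 * s) (β := 0) (w₂ := w₁) hs (by linarith) le_rfl hw₁n hu (by norm_num)
        ?_ (by simp) hup
      rw [hp, hcutb, hcuta]
      simp
    have h2 : ‖u - w₁‖ = 0 := le_antisymm (by linarith) (norm_nonneg _)
    rw [h2]
    linarith
  push Not at hb
  have hb0 : 0 < ‖b‖ := by linarith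
  have hb0' : (‖b‖ : ℂ) ≠ 0 := by exact_mod_cast hb0.ne'
  set w₂ : ℂ := c / (‖c‖ : ℂ) * ((starRingEnd ℂ) b / (‖b‖ : ℂ)) with hw₂
  have hcutb : (cut s b : ℂ) * (c / (‖c‖ : ℂ) * (starRingEnd ℂ) b) =
      ((‖b‖ - 4 * s : ℝ) : ℂ) * w₂ := by
    rw [cut, max_eq_left (by linarith), max_eq_left (by linarith), hw₂]
    push_cast
    field_simp
  -- the distance of the two phases
  have hdist : ‖w₂ - w₁‖ ≤ 4 * s ^ 2 / (‖a‖ * ‖b‖) := by
    have h1 : (‖a‖ * ‖b‖ : ℝ) * ‖w₂ - w₁‖ ≤ 4 * s ^ 2 := by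
      have hbb : b * (starRingEnd ℂ) b = (‖b‖ : ℂ) * ‖b‖ := by
        rw [Complex.mul_conj, Complex.normSq_eq_norm_sq]; push_cast; ring
      have h2 : ((‖a‖ * ‖b‖ : ℝ) : ℂ) * (w₂ - w₁) =
          (((‖a‖ * ‖b‖ - ‖c‖ : ℝ) : ℂ) * (c / (‖c‖ : ℂ)) + (c - a * b)) *
            ((starRingEnd ℂ) b / (‖b‖ : ℂ)) := by
        have hcc : (‖c‖ : ℂ) ≠ 0 := by exact_mod_cast hc0
        have h3 : a * b * ((starRingEnd ℂ) b / (‖b‖ : ℂ)) = a * ‖b‖ := by
          rw [mul_div_assoc', mul_assoc, hbb]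
          field_simp
        rw [add_mul, sub_mul c, h3, hw₂, hw₁]
        push_cast
        field_simp
        ring
      have h4 : (‖a‖ * ‖b‖ : ℝ) * ‖w₂ - w₁‖ = ‖((‖a‖ * ‖b‖ : ℝ) : ℂ) * (w₂ - w₁)‖ := by
        rw [norm_mul, Complex.norm_real, Real.norm_of_nonneg (by positivity)]
      rw [h4, h2, norm_mul, norm_div, RCLike.norm_conj, Complex.norm_real, norm_norm,
        div_self hb0.ne', mul_one]
      refine (norm_add_le _ _).trans ?_
      rw [norm_mul, norm_div, Complex.norm_real, Complex.norm_real, norm_norm, div_self hc0,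
        mul_one, Real.norm_eq_abs]
      have h5 : |‖a‖ * ‖b‖ - ‖c‖| ≤ 2 * s ^ 2 := by
        rw [← norm_mul, abs_sub_comm]
        exact (abs_norm_sub_norm_le _ _).trans hab
      linarith
    rw [le_div_iff₀ (by positivity)]
    linarith
  have hd4 : 4 * s ^ 2 / (‖a‖ * ‖b‖) ≤ 1 / 4 := by
    rw [div_le_div_iff₀ (by positivity) (by norm_num)]
    nlinarith
  have h1 : ‖u - w₁‖ ≤ 2 * (4 * s ^ 2 / (‖a‖ * ‖b‖)) := by
    refine near (α := ‖a‖ - 4 * s) (β := ‖b‖ - 4 * s) (w₂ := w₂) hs (by linarith) (by linarith)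
      hw₁n hu hd4 ?_ ?_ hup
    · rw [hp, hcuta, hcutb]
    · have h2 : (‖b‖ - 4 * s) * ‖w₂ - w₁‖ ≤ (‖b‖ - 4 * s) * (4 * s ^ 2 / (‖a‖ * ‖b‖)) :=
        mul_le_mul_of_nonneg_left hdist (by linarith)
      have h3 : 0 ≤ 4 * s ^ 2 / (‖a‖ * ‖b‖) := by positivity
      nlinarith
  calc ‖a‖ * ‖u - w₁‖ ≤ ‖a‖ * (2 * (4 * s ^ 2 / (‖a‖ * ‖b‖))) := by gcongr
    _ = 8 * s ^ 2 / ‖b‖ := by field_simp; ring
    _ ≤ 2 * s := by
      rw [div_le_iff₀ hb0]
      nlinarith

theorem continuous_cut {s : ℝ} (hs : 0 < s) : Continuous (cut s) := by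
  have h : ∀ a : ℂ, max ‖a‖ s ≠ 0 := fun a => (lt_max_of_lt_right hs).ne'
  unfold cut
  exact Continuous.div (by fun_prop) (by fun_prop) h

theorem approx (hX : CoveringDimLE X 1) {a b c : C(X, ℂ)} {s η : ℝ} (hs : 0 < s) (hη : 0 < η)
    (hc : ‖c - a * b‖ ≤ s ^ 2) :
    ∃ a' b' : C(X, ℂ), ‖a' - a‖ ≤ 12 * s ∧ ‖b' - b‖ ≤ 12 * s ∧ ‖c - a' * b'‖ ≤ η := by
  obtain ⟨c', hc0, hcc⟩ := exists_invertible hX c (η := min η (s ^ 2)) (by positivity)
  have hab : ∀ x, ‖c' x - a x * b x‖ ≤ 2 * s ^ 2 := by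
    intro x
    have h1 := (c - a * b).norm_coe_le_norm x
    have h2 := (hcc x).trans (min_le_right _ _)
    have h3 : c' x - a x * b x = (c' x - c x) + (c - a * b) x := by
      change _ = (c' x - c x) + (c x - a x * b x)
      ring
    rw [h3]
    refine (norm_add_le _ _).trans ?_
    linarith
  have hn : ∀ x, (‖c' x‖ : ℂ) ≠ 0 := fun x => by
    have := norm_ne_zero_iff.mpr (hc0 x)
    exact_mod_cast this
  -- the phase of `c'`
  let q : C(X, ℂ) := ⟨fun x => c' x / (‖c' x‖ : ℂ),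
    Continuous.div c'.continuous (Complex.continuous_ofReal.comp c'.continuous.norm) hn⟩
  have hq : ∀ x, ‖q x‖ = 1 := by
    intro x
    change ‖c' x / (‖c' x‖ : ℂ)‖ = 1
    rw [norm_div, Complex.norm_real, norm_norm, div_self (norm_ne_zero_iff.mpr (hc0 x))]
  have hqc : ∀ x, (‖c' x‖ : ℂ) * q x = c' x := fun x => mul_div_cancel₀ _ (hn x)
  have hqq : ∀ x, q x * (starRingEnd ℂ) (q x) = 1 := by
    intro x
    rw [Complex.mul_conj, Complex.normSq_eq_norm_sq, hq]; norm_num
  have hcut := continuous_cut hs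
  let p : C(X, ℂ) := ⟨fun x => (cut s (a x) : ℂ) * a x +
    (cut s (b x) : ℂ) * (q x * (starRingEnd ℂ) (b x)), by
      have h1 := Complex.continuous_ofReal.comp (hcut.comp a.continuous)
      have h2 := Complex.continuous_ofReal.comp (hcut.comp b.continuous)
      exact (h1.mul a.continuous).add
        (h2.mul (q.continuous.mul (Complex.continuous_conj.comp b.continuous)))⟩
  obtain ⟨u, hu, hpu⟩ := exists_phase hX p (r := s / 2) (by positivity)
  have huu : ∀ x, u x * (starRingEnd ℂ) (u x) = 1 := by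
    intro x
    rw [Complex.mul_conj, Complex.normSq_eq_norm_sq, hu]; norm_num
  have hmd : ∀ f g : C(X, ℂ), Continuous fun x => md (f x) (g x) (c' x) := by
    intro f g
    unfold md
    fun_prop
  let a' : C(X, ℂ) := ⟨fun x => (md (a x) (b x) (c' x) : ℂ) * u x,
    (Complex.continuous_ofReal.comp (hmd a b)).mul u.continuous⟩
  let b' : C(X, ℂ) := ⟨fun x => (md (b x) (a x) (c' x) : ℂ) * (q x * (starRingEnd ℂ) (u x)),
    (Complex.continuous_ofReal.comp (hmd b a)).mul
      (q.continuous.mul (Complex.continuous_conj.comp u.continuous))⟩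
  refine ⟨a', b', ?_, ?_, ?_⟩
  · rw [ContinuousMap.norm_le _ (by positivity)]
    intro x
    exact half (p := p x) hs (hab x) (hc0 x) (hu x) rfl (hpu x)
  · rw [ContinuousMap.norm_le _ (by positivity)]
    intro x
    refine half (a := b x) (b := a x) (c := c' x) (u := q x * (starRingEnd ℂ) (u x))
      (p := q x * (starRingEnd ℂ) (p x)) hs ?_ (hc0 x) ?_ ?_ ?_
    · rw [mul_comm (b x)]; exact hab x
    · rw [norm_mul, RCLike.norm_conj, hq, hu, one_mul]
    · change q x * (starRingEnd ℂ) ((cut s (a x) : ℂ) * a x +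
        (cut s (b x) : ℂ) * (q x * (starRingEnd ℂ) (b x))) = (cut s (b x) : ℂ) * b x +
        (cut s (a x) : ℂ) * (q x * (starRingEnd ℂ) (a x))
      simp only [map_add, map_mul, Complex.conj_ofReal, Complex.conj_conj]
      linear_combination (cut s (b x) : ℂ) * b x * hqq x
    · intro h
      have h1 : ‖q x * (starRingEnd ℂ) (p x)‖ = ‖p x‖ := by
        rw [norm_mul, RCLike.norm_conj, hq, one_mul]
      rw [h1] at h ⊢
      conv_lhs => rw [hpu x h]
      rw [map_mul, Complex.conj_ofReal]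
      ring
  · rw [ContinuousMap.norm_le _ hη.le]
    intro x
    have h1 : (c - a' * b') x = c x - c' x := by
      change c x - ((md (a x) (b x) (c' x) : ℂ) * u x) *
        ((md (b x) (a x) (c' x) : ℂ) * (q x * (starRingEnd ℂ) (u x))) = _
      have h2 : ((md (a x) (b x) (c' x) : ℂ)) * (md (b x) (a x) (c' x) : ℂ) = (‖c' x‖ : ℂ) := by
        exact_mod_cast md_mul (a x) (b x) (c' x)
      have h3 : ((md (a x) (b x) (c' x) : ℂ) * u x) *
        ((md (b x) (a x) (c' x) : ℂ) * (q x * (starRingEnd ℂ) (u x))) =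
        (((md (a x) (b x) (c' x) : ℂ)) * (md (b x) (a x) (c' x) : ℂ)) * q x *
          (u x * (starRingEnd ℂ) (u x)) := by ring
      rw [h3, h2, hqc, huu, mul_one]
    rw [h1, norm_sub_rev]
    exact (hcc x).trans (min_le_left _ _)

/-- The exact solution by iteration. -/
theorem exact_lift (hX : CoveringDimLE X 1) {a b c : C(X, ℂ)} {s : ℝ} (hs : 0 < s)
    (hc : ‖c - a * b‖ ≤ s ^ 2) :
    ∃ a' b' : C(X, ℂ), ‖a' - a‖ ≤ 24 * s ∧ ‖b' - b‖ ≤ 24 * s ∧ a' * b' = c := by
  have step : ∀ (n : ℕ) (p : {p : C(X, ℂ) × C(X, ℂ) // ‖c - p.1 * p.2‖ ≤ (s / 2 ^ n) ^ 2}),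
      ∃ q : {q : C(X, ℂ) × C(X, ℂ) // ‖c - q.1 * q.2‖ ≤ (s / 2 ^ (n + 1)) ^ 2},
        ‖q.1.1 - p.1.1‖ ≤ 12 * (s / 2 ^ n) ∧ ‖q.1.2 - p.1.2‖ ≤ 12 * (s / 2 ^ n) := by
    rintro n ⟨p, hp⟩
    obtain ⟨a', b', h1, h2, h3⟩ := approx hX (s := s / 2 ^ n) (η := (s / 2 ^ (n + 1)) ^ 2)
      (by positivity) (by positivity) hp
    exact ⟨⟨(a', b'), h3⟩, h1, h2⟩
  choose next hnext using step
  let F : (n : ℕ) → {p : C(X, ℂ) × C(X, ℂ) // ‖c - p.1 * p.2‖ ≤ (s / 2 ^ n) ^ 2} :=
    fun n => Nat.rec ⟨(a, b), by simpa using hc⟩ (fun n p => next n p) n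
  have hF : ∀ n, F (n + 1) = next n (F n) := fun n => rfl
  have h1 : ∀ n, dist (F n).1.1 (F (n + 1)).1.1 ≤ (24 * s) / 2 / 2 ^ n := by
    intro n
    rw [hF, dist_comm, dist_eq_norm]
    refine (hnext n (F n)).1.trans (le_of_eq ?_)
    ring
  have h2 : ∀ n, dist (F n).1.2 (F (n + 1)).1.2 ≤ (24 * s) / 2 / 2 ^ n := by
    intro n
    rw [hF, dist_comm, dist_eq_norm]
    refine (hnext n (F n)).2.trans (le_of_eq ?_)
    ring
  obtain ⟨a', ha'⟩ := cauchySeq_tendsto_of_complete (cauchySeq_of_le_geometric_two h1)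
  obtain ⟨b', hb'⟩ := cauchySeq_tendsto_of_complete (cauchySeq_of_le_geometric_two h2)
  refine ⟨a', b', ?_, ?_, ?_⟩
  · have := dist_le_of_le_geometric_two_of_tendsto₀ h1 ha'
    rw [dist_comm, dist_eq_norm] at this
    exact this
  · have := dist_le_of_le_geometric_two_of_tendsto₀ h2 hb'
    rw [dist_comm, dist_eq_norm] at this
    exact this
  · have h3 : Tendsto (fun n => c - (F n).1.1 * (F n).1.2) atTop (𝓝 (c - a' * b')) :=
      tendsto_const_nhds.sub (ha'.mul hb')
    have h4 : Tendsto (fun n => c - (F n).1.1 * (F n).1.2) atTop (𝓝 0) := by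
      refine squeeze_zero_norm (a := fun n : ℕ => s ^ 2 * (1 / 4) ^ n) (fun n => ?_) ?_
      · refine (F n).2.trans (le_of_eq ?_)
        rw [div_pow, ← pow_mul, mul_comm n 2, pow_mul, one_div, inv_pow, div_eq_mul_inv]
        norm_num
      · have := tendsto_pow_atTop_nhds_zero_of_lt_one (r := (1 / 4 : ℝ)) (by norm_num) (by norm_num)
        simpa using this.const_mul (s ^ 2)
    have h5 := tendsto_nhds_unique h3 h4
    exact (sub_eq_zero.mp h5).symm

open scoped Pointwise in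
/-- Let `X` be a compact Hausdorff space of covering dimension at most one. Then multiplication in
the complex algebra `C(X)` is uniformly open, with `δ = (ε / 25)²` for all pairs `a`, `b` (bounded
or not), and it is an open map. -/
theorem result (X : Type*) [TopologicalSpace X] [CompactSpace X] [T2Space X]
    (hX : CoveringDimLE X 1) :
    (∀ ε : ℝ, 0 < ε → ∀ a b : C(X, ℂ),
      Metric.ball (a * b) ((ε / 25) ^ 2) ⊆ Metric.ball a ε * Metric.ball b ε) ∧
    IsOpenMap fun p : C(X, ℂ) × C(X, ℂ) => p.1 * p.2 := by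
  have key : ∀ ε : ℝ, 0 < ε → ∀ a b : C(X, ℂ),
      Metric.ball (a * b) ((ε / 25) ^ 2) ⊆ Metric.ball a ε * Metric.ball b ε := by
    intro ε hε a b c hc
    rw [Metric.mem_ball, dist_eq_norm] at hc
    obtain ⟨a', b', h1, h2, h3⟩ := exact_lift hX (s := ε / 25) (by positivity) hc.le
    refine Set.mem_mul.mpr ⟨a', ?_, b', ?_, h3⟩
    · rw [Metric.mem_ball, dist_eq_norm]; linarith
    · rw [Metric.mem_ball, dist_eq_norm]; linarith
  refine ⟨key, ?_⟩
  rw [isOpenMap_iff_nhds_le]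
  rintro ⟨a, b⟩ W hW
  rw [Filter.mem_map, Metric.mem_nhds_iff] at hW
  obtain ⟨ε, hε, hεW⟩ := hW
  refine Filter.mem_of_superset (Metric.ball_mem_nhds _ (show 0 < (ε / 25) ^ 2 by positivity)) ?_
  intro c hc
  obtain ⟨a', ha', b', hb', rfl⟩ := Set.mem_mul.mp (key ε hε a b hc)
  have : (a', b') ∈ Metric.ball (a, b) ε := by
    rw [Metric.mem_ball, Prod.dist_eq]
    exact max_lt ha' hb'
  exact hεW this

end Pool.Agent.Results.MP_64150f_an.UniformlyOpen
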